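import Pool.Agent.H23.LB.Targets
import Pool.Agent.H48.RC.RX

/-!
# Module BD: the bound for the Mellin transforms
-/

set_option autoImplicit false

open NumberField NumberField.InfinitePlace NumberField.Units
  NumberField.Units.dirichletUnitTheorem MeasureTheory Set Filter Complex
open scoped nonZeroDivisors ENNReal

namespace Pool.Agent.H34.LB

open Pool.Agent.H25.HK Pool.Agent.H28.RC Pool.Agent.H23.LB

/-- the inequality of Cauchy and Schwarz with a weight -/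
lemma cs (h : ℝ → ℂ) (c : ℂ) (κ : ℝ) (hκ : 0 < κ) (hc : 2 * c.re ≤ -1 + κ / 4)
    (hI : IntegrableOn (fun T : ℝ => h T * (T : ℂ) ^ c) (Ioi 1))
    (hg : IntegrableOn (fun T : ℝ => ‖h T‖ ^ 2 * T ^ (κ / 2)) (Ioi 1)) :
    ‖∫ T in Ioi (1 : ℝ), h T * (T : ℂ) ^ c‖ ^ 2 ≤
      4 / κ * ∫ T in Ioi (1 : ℝ), ‖h T‖ ^ 2 * T ^ (κ / 2) := by
  set A : ℝ := ∫ T in Ioi (1 : ℝ), ‖h T‖ ^ 2 * T ^ (κ / 2) with hA
  set e : ℝ := 2 * c.re - κ / 2 with he
  have he1 : e ≤ -1 - κ / 4 := by rw [he]; linarith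
  have he2 : e < -1 := by linarith
  have hk : ∀ T ∈ Ioi (1 : ℝ), ‖h T * (T : ℂ) ^ c‖ = ‖h T‖ * T ^ c.re := by
    intro T hT
    rw [mem_Ioi] at hT
    rw [norm_mul, Complex.norm_cpow_eq_rpow_re_of_pos (by linarith)]
  have hkI : IntegrableOn (fun T : ℝ => ‖h T‖ * T ^ c.re) (Ioi 1) :=
    IntegrableOn.congr_fun hI.norm hk measurableSet_Ioi
  have hn : ‖∫ T in Ioi (1 : ℝ), h T * (T : ℂ) ^ c‖ ≤ ∫ T in Ioi (1 : ℝ), ‖h T‖ * T ^ c.re := by
    rw [← setIntegral_congr_fun measurableSet_Ioi hk]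
    exact norm_integral_le_integral_norm _
  set I₁ : ℝ := ∫ T in Ioi (1 : ℝ), ‖h T‖ * T ^ c.re with hI1
  have hDI : IntegrableOn (fun T : ℝ => T ^ e) (Ioi 1) := integrableOn_Ioi_rpow_of_lt he2 one_pos
  have hD : ∫ T in Ioi (1 : ℝ), T ^ e ≤ 4 / κ := by
    rw [integral_Ioi_rpow_of_lt he2 one_pos, Real.one_rpow, neg_div, ← div_neg]
    have h1 : κ / 4 ≤ -(e + 1) := by linarith
    have h2 : 1 / -(e + 1) ≤ 1 / (κ / 4) := one_div_le_one_div_of_le (by linarith) h1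
    rw [one_div_div] at h2
    exact h2
  set D : ℝ := ∫ T in Ioi (1 : ℝ), T ^ e with hDd
  have hA0 : 0 ≤ A := setIntegral_nonneg measurableSet_Ioi fun T hT => by
    rw [mem_Ioi] at hT
    exact mul_nonneg (sq_nonneg _) (Real.rpow_nonneg (by linarith) _)
  have hq : ∀ t : ℝ, 0 ≤ A * (t * t) + (-2 * I₁) * t + D := by
    intro t
    have h1 : 0 ≤ ∫ T in Ioi (1 : ℝ), (t * t * (‖h T‖ ^ 2 * T ^ (κ / 2)) +
        (-2 * t) * (‖h T‖ * T ^ c.re) + T ^ e) := by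
      refine setIntegral_nonneg measurableSet_Ioi fun T hT => ?_
      rw [mem_Ioi] at hT
      have hT0 : 0 < T := by linarith
      have e1 : T ^ (κ / 2) = T ^ (κ / 4) * T ^ (κ / 4) := by
        rw [← Real.rpow_add hT0]; congr 1; ring
      have e2 : T ^ c.re = T ^ (κ / 4) * T ^ (c.re - κ / 4) := by
        rw [← Real.rpow_add hT0]; congr 1; ring
      have e3 : T ^ e = T ^ (c.re - κ / 4) * T ^ (c.re - κ / 4) := by
        rw [← Real.rpow_add hT0, he]; congr 1; ring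
      rw [e1, e2, e3]
      have h2 := sq_nonneg (t * (‖h T‖ * T ^ (κ / 4)) - T ^ (c.re - κ / 4))
      nlinarith [h2]
    have h2 : ∫ T in Ioi (1 : ℝ), (t * t * (‖h T‖ ^ 2 * T ^ (κ / 2)) +
        (-2 * t) * (‖h T‖ * T ^ c.re) + T ^ e) = t * t * A + (-2 * t) * I₁ + D := by
      have i1 : Integrable (fun T : ℝ => t * t * (‖h T‖ ^ 2 * T ^ (κ / 2)))
          (volume.restrict (Ioi 1)) := hg.const_mul _
      have i2 : Integrable (fun T : ℝ => (-2 * t) * (‖h T‖ * T ^ c.re))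
          (volume.restrict (Ioi 1)) := hkI.const_mul _
      have i3 : Integrable (fun T : ℝ => t * t * (‖h T‖ ^ 2 * T ^ (κ / 2)) +
          (-2 * t) * (‖h T‖ * T ^ c.re)) (volume.restrict (Ioi 1)) := i1.add i2
      rw [integral_add i3 hDI, integral_add i1 i2, integral_const_mul, integral_const_mul]
    rw [h2] at h1
    linarith
  have hd := discrim_le_zero hq
  unfold discrim at hd
  have h3 : I₁ ^ 2 ≤ A * D := by nlinarith [hd]
  calc ‖∫ T in Ioi (1 : ℝ), h T * (T : ℂ) ^ c‖ ^ 2 ≤ I₁ ^ 2 :=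
        pow_le_pow_left₀ (norm_nonneg _) hn 2
    _ ≤ A * D := h3
    _ ≤ A * (4 / κ) := mul_le_mul_of_nonneg_left hD hA0
    _ = 4 / κ * A := mul_comm _ _

/-- the same for a finite family -/
lemma fam_cs {ι : Type} (X : Finset ι) (h : ι → ℝ → ℂ) (c : ℂ) (κ : ℝ) (hκ : 0 < κ)
    (hc : 2 * c.re ≤ -1 + κ / 4)
    (hI : ∀ r ∈ X, IntegrableOn (fun T : ℝ => h r T * (T : ℂ) ^ c) (Ioi 1)) (G : ℝ → ℝ)
    (hG : IntegrableOn (fun T : ℝ => G T * T ^ (κ / 2)) (Ioi 1))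
    (hle : ∀ T : ℝ, 1 < T → ∑ r ∈ X, ‖h r T‖ ^ 2 ≤ G T) :
    ∑ r ∈ X, ‖∫ T in Ioi (1 : ℝ), h r T * (T : ℂ) ^ c‖ ^ 2 ≤
      4 / κ * ∫ T in Ioi (1 : ℝ), G T * T ^ (κ / 2) := by
  have hm : ∀ r ∈ X, AEStronglyMeasurable (fun T : ℝ => ‖h r T‖ ^ 2 * T ^ (κ / 2))
      (volume.restrict (Ioi 1)) := by
    intro r hr
    have h1 : AEStronglyMeasurable (fun T : ℝ => ‖h r T * (T : ℂ) ^ c‖ ^ 2 *
        T ^ (κ / 2 - 2 * c.re)) (volume.restrict (Ioi 1)) :=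
      ((hI r hr).aestronglyMeasurable.norm.pow 2).mul
        (measurable_id.pow_const _).aestronglyMeasurable
    refine h1.congr ?_
    refine (ae_restrict_iff' measurableSet_Ioi).2 (Eventually.of_forall fun T hT => ?_)
    rw [mem_Ioi] at hT
    have hT0 : 0 < T := by linarith
    have e1 : T ^ (κ / 2) = T ^ c.re * T ^ c.re * T ^ (κ / 2 - 2 * c.re) := by
      rw [← Real.rpow_add hT0, ← Real.rpow_add hT0]; congr 1; ring
    beta_reduce
    rw [norm_mul, Complex.norm_cpow_eq_rpow_re_of_pos hT0, e1]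
    ring
  have hgI : ∀ r ∈ X, IntegrableOn (fun T : ℝ => ‖h r T‖ ^ 2 * T ^ (κ / 2)) (Ioi 1) := by
    intro r hr
    refine Integrable.mono' hG (hm r hr) ?_
    refine (ae_restrict_iff' measurableSet_Ioi).2 (Eventually.of_forall fun T hT => ?_)
    rw [mem_Ioi] at hT
    have hT1 : 0 ≤ T ^ (κ / 2) := Real.rpow_nonneg (by linarith) _
    rw [Real.norm_of_nonneg (mul_nonneg (sq_nonneg _) hT1)]
    refine mul_le_mul_of_nonneg_right (le_trans ?_ (hle T hT)) hT1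
    exact Finset.single_le_sum (f := fun r => ‖h r T‖ ^ 2) (fun _ _ => sq_nonneg _) hr
  calc ∑ r ∈ X, ‖∫ T in Ioi (1 : ℝ), h r T * (T : ℂ) ^ c‖ ^ 2
      ≤ ∑ r ∈ X, 4 / κ * ∫ T in Ioi (1 : ℝ), ‖h r T‖ ^ 2 * T ^ (κ / 2) :=
        Finset.sum_le_sum fun r hr => cs (h r) c κ hκ hc (hI r hr) (hgI r hr)
    _ = 4 / κ * ∫ T in Ioi (1 : ℝ), ∑ r ∈ X, ‖h r T‖ ^ 2 * T ^ (κ / 2) := by
        rw [integral_finsetSum X hgI, Finset.mul_sum]
    _ ≤ 4 / κ * ∫ T in Ioi (1 : ℝ), G T * T ^ (κ / 2) := by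
        refine mul_le_mul_of_nonneg_left ?_ (by positivity)
        refine setIntegral_mono_on (integrable_finsetSum X hgI) hG measurableSet_Ioi
          fun T hT => ?_
        rw [mem_Ioi] at hT
        rw [← Finset.sum_mul]
        exact mul_le_mul_of_nonneg_right (hle T hT) (Real.rpow_nonneg (by linarith) _)

/-- the number of the representatives -/
lemma card_le {K : Type} [Field K] [NumberField K] {f : Ideal (𝓞 K)} {M : FI K} {X : Finset K}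
    (hf : f ≠ ⊥) (hM : M ≠ 0) (hX : Rep K f M X) : (X.card : ℝ) ≤ Nf K f := by
  obtain ⟨Y, hY, hc⟩ := Pool.Agent.H48.RC.pf_RX K f M hf hM
  have h1 : ∀ r ∈ X, ∃ s, s ∈ Y ∧ r - s ∈ (f : FI K) * M := by
    intro r hr
    obtain ⟨s, hs, -⟩ := hY.2 r (hX.1 r hr)
    exact ⟨s, hs⟩
  choose! g hg using h1
  have h2 : X.card ≤ Y.card := by
    refine Finset.card_le_card_of_injOn g (fun r hr => (hg r hr).1) ?_
    intro r hr r' hr' he
    rw [Finset.mem_coe] at hr hr'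
    obtain ⟨s, -, hs⟩ := hX.2 r (hX.1 r hr)
    have h3 : r = s := hs r ⟨hr, by
      rw [sub_self]
      exact ((f : FI K) * M).coeToSubmodule.zero_mem⟩
    have h4 : r' = s := hs r' ⟨hr', by
      have h5 := (hg r hr).2
      have h6 := (hg r' hr').2
      rw [← he] at h6
      have h7 := ((f : FI K) * M).coeToSubmodule.sub_mem h5 h6
      rwa [sub_sub_sub_cancel_right] at h7⟩
    exact h3.trans h4.symm
  unfold Nf
  rw [← hc]
  exact_mod_cast h2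

lemma norm_rn (K : Type) [Field K] [NumberField K] (S : Finset (RP K)) (φ : ℝ) :
    ‖rn K S φ‖ = 1 := by
  unfold rn
  rw [norm_mul, norm_pow, norm_neg, Complex.norm_I, one_pow, mul_one]
  have h1 : (-(φ * Module.finrank ℚ K / 2) * I : ℂ) =
      ((-(φ * Module.finrank ℚ K / 2) : ℝ) : ℂ) * I := by push_cast; ring
  rw [h1, Complex.norm_exp_ofReal_mul_I]

lemma norm_d0 (K : Type) [Field K] [NumberField K] (S : Finset (RP K)) (f : Ideal (𝓞 K))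
    (M : FI K) (r : K) : ‖d0 K S f M r‖ ≤ 1 := by
  unfold d0
  split_ifs <;> simp

lemma norm_d1 (K : Type) [Field K] [NumberField K] (S : Finset (RP K)) : ‖d1 K S‖ ≤ 1 := by
  unfold d1
  split_ifs <;> simp

lemma pole (d s : ℂ) (hd : ‖d‖ ≤ 1) (hs : 3 / 8 ≤ s.re) : ‖d / s‖ ^ 2 ≤ 8 := by
  have h1 : 3 / 8 ≤ ‖s‖ := le_trans hs (Complex.re_le_norm s)
  have h2 : ‖d / s‖ ≤ 8 / 3 := by
    rw [norm_div, div_le_iff₀ (by linarith)]
    linarith
  have h3 := norm_nonneg (d / s)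
  nlinarith

/-- the constant `b` against the cosine -/
lemma pow_b (β n B : ℝ) (hβ : 0 < β) (hβ1 : β ≤ 1) (hn : 0 ≤ n) :
    β ^ (-n) * ((β / 6) ^ (n / 2)) ^ (-B) ≤ 6 ^ (n * |B| / 2) * β ^ (-(n + n * |B| / 2)) := by
  have hb0 : 0 < β / 6 := by positivity
  have hb1 : β / 6 ≤ 1 := by linarith
  have h1 : ((β / 6) ^ (n / 2)) ^ (-B) ≤ ((β / 6) ^ (n / 2)) ^ (-|B|) :=
    Real.rpow_le_rpow_of_exponent_ge (Real.rpow_pos_of_pos hb0 _)
      (Real.rpow_le_one hb0.le hb1 (by linarith)) (neg_le_neg (le_abs_self B))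
  have h2 : ((β / 6) ^ (n / 2)) ^ (-|B|) = 6 ^ (n * |B| / 2) * β ^ (-(n * |B| / 2)) := by
    rw [← Real.rpow_mul hb0.le, Real.div_rpow hβ.le (by norm_num)]
    have e1 : n / 2 * -|B| = -(n * |B| / 2) := by ring
    rw [e1, Real.rpow_neg (by norm_num : (0 : ℝ) ≤ 6), div_inv_eq_mul, mul_comm]
  have h3 : β ^ (-(n + n * |B| / 2)) = β ^ (-n) * β ^ (-(n * |B| / 2)) := by
    rw [← Real.rpow_add hβ]
    congr 1
    ring
  calc β ^ (-n) * ((β / 6) ^ (n / 2)) ^ (-B) ≤ β ^ (-n) * ((β / 6) ^ (n / 2)) ^ (-|B|) :=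
        mul_le_mul_of_nonneg_left h1 (Real.rpow_nonneg hβ.le _)
    _ = 6 ^ (n * |B| / 2) * β ^ (-(n + n * |B| / 2)) := by
        rw [h2, h3]
        ring

lemma four (w x y z : ℝ) : (w + x + y + z) ^ 2 ≤ 4 * (w ^ 2 + x ^ 2 + y ^ 2 + z ^ 2) := by
  nlinarith [sq_nonneg (w - x), sq_nonneg (w - y), sq_nonneg (w - z), sq_nonneg (x - y),
    sq_nonneg (x - z), sq_nonneg (y - z)]

theorem pf_BD (hAZ : Pool.Agent.H23.LB.T_AZ) (hH1 : Pool.Agent.H23.LB.T_H1)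
    (hH2 : Pool.Agent.H23.LB.T_H2) (hMV : Pool.Agent.H23.LB.T_MV) : Pool.Agent.H23.LB.T_BD' := by
  intro n hn
  obtain ⟨B, hB⟩ := hMV n hn
  refine ⟨n + n * |B| / 2, fun κ hκ hκ1 => ?_⟩
  obtain ⟨C, hC⟩ := hB κ hκ hκ1
  refine ⟨4 * (8 / κ * 6 ^ ((n : ℝ) * |B| / 2) + 16) * C, ?_⟩
  intro K _ _ hK S f M X φ hf hM hX hφ z s hs
  set β : ℝ := Real.cos φ with hβ
  have hβ0 : 0 < β := Real.cos_pos_of_mem_Ioo (abs_lt.1 hφ)
  have hβ1 : β ≤ 1 := Real.cos_le_one φ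
  set b : ℝ := (β / 6) ^ ((Module.finrank ℚ K : ℝ) / 2) with hb
  have hb0 : 0 < b := Real.rpow_pos_of_pos (by positivity) _
  have hb1 : b ≤ 1 := Real.rpow_le_one (by positivity) (by linarith) (by positivity)
  have hfM : (f : FI K) * M ≠ 0 := mul_ne_zero (FractionalIdeal.coeIdeal_ne_zero.2 hf) hM
  have hdM : du K M ≠ 0 := FractionalIdeal.dual_ne_zero ℤ ℚ hM
  have hdfM : du K ((f : FI K) * M) ≠ 0 := FractionalIdeal.dual_ne_zero ℤ ℚ hfM
  set R : ℝ := Nf K f * (AK K κ ((f : FI K) * M) z + AK K κ (du K ((f : FI K) * M)) (-z)) +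
        Nf K f ^ (1 + κ) * (AK K κ M z + AK K κ (du K M) (-z)) with hR
  have hN0 : 0 ≤ Nf K f := by unfold Nf; positivity
  have hCR : Nf K f ≤ C * R := by
    have a1 := (hC K hK f ((f : FI K) * M) z 1 hf hfM one_pos le_rfl).2.2
    have a2 := (hC K hK f (du K ((f : FI K) * M)) (-z) 1 hf hdfM one_pos le_rfl).2.2
    have a3 := (hC K hK f M z 1 hf hM one_pos le_rfl).2.2
    have a4 := (hC K hK f (du K M) (-z) 1 hf hdM one_pos le_rfl).2.2
    have hN1 : 0 ≤ Nf K f ^ (1 + κ) := Real.rpow_nonneg hN0 _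
    have e1 : C * R = Nf K f * (C * AK K κ ((f : FI K) * M) z +
        C * AK K κ (du K ((f : FI K) * M)) (-z)) +
        Nf K f ^ (1 + κ) * (C * AK K κ M z + C * AK K κ (du K M) (-z)) := by
      rw [hR]
      ring
    rw [e1]
    have h1 : Nf K f * 1 ≤ Nf K f * (C * AK K κ ((f : FI K) * M) z +
        C * AK K κ (du K ((f : FI K) * M)) (-z)) := mul_le_mul_of_nonneg_left (by linarith) hN0
    have h2 : 0 ≤ Nf K f ^ (1 + κ) * (C * AK K κ M z + C * AK K κ (du K M) (-z)) :=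
      mul_nonneg hN1 (by linarith)
    linarith
  have hCR0 : 0 ≤ C * R := le_trans hN0 hCR
  obtain ⟨⟨mI1, mv1⟩, ⟨mI2, mv2⟩, -⟩ := hC K hK f M z b hf hM hb0 hb1
  have hs1 := abs_le.1 hs
  -- the first integral
  have hβn : 0 ≤ β ^ (-(Module.finrank ℚ K : ℝ)) := Real.rpow_nonneg hβ0.le _
  have key : ∀ (h : K → ℝ → ℂ) (c : ℂ) (G : ℝ → ℝ), 2 * c.re ≤ -1 + κ / 4 →
      (∀ r ∈ X, IntegrableOn (fun T : ℝ => h r T * (T : ℂ) ^ c) (Ioi 1)) →
      IntegrableOn (fun T : ℝ => G T * T ^ (κ / 2)) (Ioi 1) →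
      (∀ T : ℝ, 1 < T → ∑ r ∈ X, ‖h r T‖ ^ 2 ≤ β ^ (-(Module.finrank ℚ K : ℝ)) * G T) →
      ∫ T in Ioi (1 : ℝ), G T * T ^ (κ / 2) ≤ C * b ^ (-B) * R →
      ∑ r ∈ X, ‖∫ T in Ioi (1 : ℝ), h r T * (T : ℂ) ^ c‖ ^ 2 ≤
        4 / κ * (6 ^ ((n : ℝ) * |B| / 2) * β ^ (-((n : ℝ) + n * |B| / 2)) * (C * R)) := by
    intro h c G hc hI hG hle hi
    have hG' : IntegrableOn (fun T : ℝ => β ^ (-(Module.finrank ℚ K : ℝ)) * G T * T ^ (κ / 2))
        (Ioi 1) := by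
      have h1 := hG.const_mul (β ^ (-(Module.finrank ℚ K : ℝ)))
      refine IntegrableOn.congr_fun h1 (fun T _ => ?_) measurableSet_Ioi
      rw [mul_assoc]
    refine le_trans (fam_cs X h c κ hκ hc hI
      (fun T => β ^ (-(Module.finrank ℚ K : ℝ)) * G T) hG' hle) ?_
    refine mul_le_mul_of_nonneg_left ?_ (by positivity)
    have h2 : ∫ T in Ioi (1 : ℝ), β ^ (-(Module.finrank ℚ K : ℝ)) * G T * T ^ (κ / 2) =
        β ^ (-(Module.finrank ℚ K : ℝ)) * ∫ T in Ioi (1 : ℝ), G T * T ^ (κ / 2) := by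
      rw [← integral_const_mul]
      exact setIntegral_congr_fun measurableSet_Ioi fun T _ => mul_assoc _ _ _
    rw [h2]
    calc β ^ (-(Module.finrank ℚ K : ℝ)) * ∫ T in Ioi (1 : ℝ), G T * T ^ (κ / 2)
        ≤ β ^ (-(Module.finrank ℚ K : ℝ)) * (C * b ^ (-B) * R) :=
          mul_le_mul_of_nonneg_left hi hβn
      _ = (β ^ (-(Module.finrank ℚ K : ℝ)) * b ^ (-B)) * (C * R) := by ring
      _ ≤ _ := by
          refine mul_le_mul_of_nonneg_right ?_ hCR0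
          rw [hb, hK]
          exact pow_b β n B hβ0 hβ1 (by positivity)
  have s1 := key (fun r T => W K S f M r φ z T - d0 K S f M r) (s - 1)
    (fun T => (FT K M z (T * b / Nf K f) - 1) * FT K ((f : FI K) * M) z (T * b))
    (by rw [Complex.sub_re, Complex.one_re]; linarith)
    (fun r hr => ((hAZ K S f M r φ hf hM (hX.1 r hr) hφ).2.2.2 z s).1) mI1
    (fun T hT => hH1 K S f M X φ hf hM hX hφ z T b (by linarith) rfl) mv1
  have s2 := key (fun r T => W' K S f M r φ z T - d1 K S) (-s)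
    (fun T => Nf K f * ((FT K (du K ((f : FI K) * M)) (-z) (T * b) - 1) *
      FT K (du K M) (-z) (T * b * Nf K f)))
    (by rw [Complex.neg_re]; linarith)
    (fun r hr => ((hAZ K S f M r φ hf hM (hX.1 r hr) hφ).2.2.2 z s).2) mI2
    (fun T hT => hH2 K S f M X φ hf hM hX hφ z T b (by linarith) rfl) mv2
  have hEZ : ∀ r ∈ X, ‖EZ K S f M r φ z s‖ ^ 2 ≤
      4 * (‖∫ T in Ioi (1 : ℝ), (W K S f M r φ z T - d0 K S f M r) * (T : ℂ) ^ (s - 1)‖ ^ 2 +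
        ‖∫ T in Ioi (1 : ℝ), (W' K S f M r φ z T - d1 K S) * (T : ℂ) ^ (-s)‖ ^ 2 + 8 + 8) := by
    intro r _
    have p0 := pole (d0 K S f M r) s (norm_d0 K S f M r) (by linarith)
    have p1 := pole (d1 K S) (1 - s) (norm_d1 K S)
      (by rw [Complex.sub_re, Complex.one_re]; linarith)
    have h1 : ‖EZ K S f M r φ z s‖ ≤
        ‖∫ T in Ioi (1 : ℝ), (W K S f M r φ z T - d0 K S f M r) * (T : ℂ) ^ (s - 1)‖ +
        ‖∫ T in Ioi (1 : ℝ), (W' K S f M r φ z T - d1 K S) * (T : ℂ) ^ (-s)‖ +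
        ‖d0 K S f M r / s‖ + ‖d1 K S / (1 - s)‖ := by
      unfold EZ E0
      refine le_trans (norm_sub_le _ _) ?_
      refine add_le_add (le_trans (norm_sub_le _ _) (add_le_add (le_trans (norm_add_le _ _)
        (add_le_add le_rfl ?_)) le_rfl)) ?_
      · rw [norm_mul, norm_rn, one_mul]
      · rw [mul_div_assoc, norm_mul, norm_rn, one_mul]
    have h2 := pow_le_pow_left₀ (norm_nonneg _) h1 2
    have h3 := four (‖∫ T in Ioi (1 : ℝ), (W K S f M r φ z T - d0 K S f M r) *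
      (T : ℂ) ^ (s - 1)‖) (‖∫ T in Ioi (1 : ℝ), (W' K S f M r φ z T - d1 K S) * (T : ℂ) ^ (-s)‖)
      ‖d0 K S f M r / s‖ ‖d1 K S / (1 - s)‖
    linarith
  have hcard := card_le hf hM hX
  have hone : 1 ≤ β ^ (-((n : ℝ) + n * |B| / 2)) := by
    refine Real.one_le_rpow_of_pos_of_le_one_of_nonpos hβ0 hβ1 ?_
    have : 0 ≤ (n : ℝ) + n * |B| / 2 := by positivity
    linarith
  calc ∑ r ∈ X, ‖EZ K S f M r φ z s‖ ^ 2
      ≤ ∑ r ∈ X, 4 * (‖∫ T in Ioi (1 : ℝ), (W K S f M r φ z T - d0 K S f M r) *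
          (T : ℂ) ^ (s - 1)‖ ^ 2 +
        ‖∫ T in Ioi (1 : ℝ), (W' K S f M r φ z T - d1 K S) * (T : ℂ) ^ (-s)‖ ^ 2 + 8 + 8) :=
        Finset.sum_le_sum hEZ
    _ = 4 * ((∑ r ∈ X, ‖∫ T in Ioi (1 : ℝ), (W K S f M r φ z T - d0 K S f M r) *
          (T : ℂ) ^ (s - 1)‖ ^ 2) +
        (∑ r ∈ X, ‖∫ T in Ioi (1 : ℝ), (W' K S f M r φ z T - d1 K S) * (T : ℂ) ^ (-s)‖ ^ 2) +
        16 * X.card) := by
        rw [← Finset.mul_sum, Finset.sum_add_distrib, Finset.sum_add_distrib,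
          Finset.sum_add_distrib, Finset.sum_const, nsmul_eq_mul]
        ring
    _ ≤ 4 * (4 / κ * (6 ^ ((n : ℝ) * |B| / 2) * β ^ (-((n : ℝ) + n * |B| / 2)) * (C * R)) +
        4 / κ * (6 ^ ((n : ℝ) * |B| / 2) * β ^ (-((n : ℝ) + n * |B| / 2)) * (C * R)) +
        16 * (β ^ (-((n : ℝ) + n * |B| / 2)) * (C * R))) := by
        have h5 : C * R ≤ β ^ (-((n : ℝ) + n * |B| / 2)) * (C * R) :=
          le_mul_of_one_le_left hCR0 hone
        have h6 : (X.card : ℝ) ≤ β ^ (-((n : ℝ) + n * |B| / 2)) * (C * R) :=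
          le_trans hcard (le_trans hCR h5)
        linarith
    _ = 4 * (8 / κ * 6 ^ ((n : ℝ) * |B| / 2) + 16) * C * β ^ (-((n : ℝ) + n * |B| / 2)) * R := by
        ring

end Pool.Agent.H34.LB
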