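import Pool.Agent.H82.LB.Targets3

/-!
Row LEMN of the board lmb_modules (`MP_ee74d2_an`): Lemma B at a node.
-/

set_option autoImplicit false

open MeasureTheory Set
open scoped ENNReal NNReal RealInnerProductSpace

namespace Pool.Agent.H34.LB

open Pool.Agent.H83.G Pool.Agent.H82.LB

theorem kpow {K Λ C₁ t : ℝ} {p : ℕ} (hK : 1 ≤ K) (h : K ^ C₁ ≤ Λ) (ht : 0 ≤ t)
    (hp : (p : ℝ) ≤ C₁ * t) : K ^ p ≤ Λ ^ t := by
  have hK0 : 0 ≤ K := by linarith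
  rw [← Real.rpow_natCast]
  calc K ^ (p : ℝ) ≤ K ^ (C₁ * t) := Real.rpow_le_rpow_of_exponent_le hK hp
    _ = (K ^ C₁) ^ t := Real.rpow_mul hK0 _ _
    _ ≤ Λ ^ t := Real.rpow_le_rpow (Real.rpow_nonneg hK0 _) h ht

theorem kpowr {K Λ C₁ s t : ℝ} (hK : 1 ≤ K) (h : K ^ C₁ ≤ Λ) (ht : 0 ≤ t)
    (hp : s ≤ C₁ * t) : K ^ s ≤ Λ ^ t := by
  have hK0 : 0 ≤ K := by linarith
  calc K ^ s ≤ K ^ (C₁ * t) := Real.rpow_le_rpow_of_exponent_le hK hp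
    _ = (K ^ C₁) ^ t := Real.rpow_mul hK0 _ _
    _ ≤ Λ ^ t := Real.rpow_le_rpow (Real.rpow_nonneg hK0 _) h ht

theorem split43 {H : ℝ} (hH : 0 < H) : H ^ (10 / 3 : ℝ) = H ^ 2 * H ^ (4 / 3 : ℝ) := by
  rw [← Real.rpow_natCast, ← Real.rpow_add hH]
  norm_num

theorem triv1 {R Λ A H c : ℝ} (hR : 1 ≤ R) (hΛ : 1 ≤ Λ) (hA : 0 < A) (hH : 0 < H) (hHA : H ≤ A)
    (hΛH : Λ * H ≤ A * R) (hc : c ≤ 1 / 12) :
    Λ ^ (1 / 12 : ℝ) * H ^ (4 / 3 : ℝ) ≤ Λ ^ (-c) * A ^ (4 / 3 : ℝ) * R ^ (1 / 3 : ℝ) := by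
  have hΛ0 : 0 < Λ := by linarith
  have hR0 : 0 < R := by linarith
  have h1 : Λ ^ (1 / 12 : ℝ) = Λ ^ (-c) * Λ ^ (1 / 12 + c) := by
    rw [← Real.rpow_add hΛ0]
    congr 1
    ring
  have h2 : Λ ^ (1 / 12 + c) ≤ Λ ^ (1 / 6 : ℝ) :=
    Real.rpow_le_rpow_of_exponent_le hΛ (by linarith)
  have h3 : H ^ (4 / 3 : ℝ) = H ^ (1 / 6 : ℝ) * H ^ (7 / 6 : ℝ) := by
    rw [← Real.rpow_add hH]
    norm_num
  have h4 : H ^ (7 / 6 : ℝ) ≤ A ^ (7 / 6 : ℝ) := Real.rpow_le_rpow hH.le hHA (by norm_num)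
  have h5 : Λ ^ (1 / 6 : ℝ) * H ^ (1 / 6 : ℝ) ≤ A ^ (1 / 6 : ℝ) * R ^ (1 / 6 : ℝ) := by
    rw [← Real.mul_rpow hΛ0.le hH.le, ← Real.mul_rpow hA.le hR0.le]
    exact Real.rpow_le_rpow (by positivity) hΛH (by norm_num)
  have h6 : A ^ (4 / 3 : ℝ) = A ^ (1 / 6 : ℝ) * A ^ (7 / 6 : ℝ) := by
    rw [← Real.rpow_add hA]
    norm_num
  have h7 : R ^ (1 / 6 : ℝ) ≤ R ^ (1 / 3 : ℝ) :=
    Real.rpow_le_rpow_of_exponent_le hR (by norm_num)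
  have key : Λ ^ (1 / 6 : ℝ) * H ^ (4 / 3 : ℝ) ≤ A ^ (4 / 3 : ℝ) * R ^ (1 / 3 : ℝ) := by
    rw [h3, h6]
    calc Λ ^ (1 / 6 : ℝ) * (H ^ (1 / 6 : ℝ) * H ^ (7 / 6 : ℝ))
        = (Λ ^ (1 / 6 : ℝ) * H ^ (1 / 6 : ℝ)) * H ^ (7 / 6 : ℝ) := by ring
      _ ≤ (A ^ (1 / 6 : ℝ) * R ^ (1 / 6 : ℝ)) * A ^ (7 / 6 : ℝ) := by
          exact mul_le_mul h5 h4 (by positivity) (by positivity)
      _ ≤ (A ^ (1 / 6 : ℝ) * R ^ (1 / 3 : ℝ)) * A ^ (7 / 6 : ℝ) := by gcongr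
      _ = A ^ (1 / 6 : ℝ) * A ^ (7 / 6 : ℝ) * R ^ (1 / 3 : ℝ) := by ring
  calc Λ ^ (1 / 12 : ℝ) * H ^ (4 / 3 : ℝ)
      = Λ ^ (-c) * (Λ ^ (1 / 12 + c) * H ^ (4 / 3 : ℝ)) := by rw [h1]; ring
    _ ≤ Λ ^ (-c) * (Λ ^ (1 / 6 : ℝ) * H ^ (4 / 3 : ℝ)) := by gcongr
    _ ≤ Λ ^ (-c) * (A ^ (4 / 3 : ℝ) * R ^ (1 / 3 : ℝ)) := by gcongr
    _ = _ := by ring

theorem triv2 {R Λ A H c : ℝ} (hR : 1 ≤ R) (hΛ : 1 ≤ Λ) (hA : 0 < A) (hH : 0 < H)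
    (hΛH : Λ * H ≤ A * R) (hc : c ≤ 1 / 12) :
    Λ ^ (1 / 12 : ℝ) * H ^ (4 / 3 : ℝ) ≤ R * (Λ ^ (-c) * A ^ (4 / 3 : ℝ) * R ^ (1 / 3 : ℝ)) := by
  have hΛ0 : 0 < Λ := by linarith
  have hR0 : 0 < R := by linarith
  have h5 : Λ ^ (4 / 3 : ℝ) * H ^ (4 / 3 : ℝ) ≤ A ^ (4 / 3 : ℝ) * R ^ (4 / 3 : ℝ) := by
    rw [← Real.mul_rpow hΛ0.le hH.le, ← Real.mul_rpow hA.le hR0.le]
    exact Real.rpow_le_rpow (by positivity) hΛH (by norm_num)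
  have h1 : Λ ^ (1 / 12 : ℝ) ≤ Λ ^ (-c) * Λ ^ (4 / 3 : ℝ) := by
    rw [← Real.rpow_add hΛ0]
    exact Real.rpow_le_rpow_of_exponent_le hΛ (by linarith)
  have h6 : R ^ (4 / 3 : ℝ) = R * R ^ (1 / 3 : ℝ) := by
    nth_rw 2 [← Real.rpow_one R]
    rw [← Real.rpow_add hR0]
    norm_num
  calc Λ ^ (1 / 12 : ℝ) * H ^ (4 / 3 : ℝ)
      ≤ (Λ ^ (-c) * Λ ^ (4 / 3 : ℝ)) * H ^ (4 / 3 : ℝ) := by gcongr
    _ = Λ ^ (-c) * (Λ ^ (4 / 3 : ℝ) * H ^ (4 / 3 : ℝ)) := by ring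
    _ ≤ Λ ^ (-c) * (A ^ (4 / 3 : ℝ) * R ^ (4 / 3 : ℝ)) := by gcongr
    _ = _ := by rw [h6]; ring

/-- the passage from the array to the function -/
theorem arr_to {x y H C K D G A R E S : ℝ} (hC : 1 ≤ C) (hK : 1 ≤ K) (hH : 0 < H) (hA : 0 < A)
    (hR : 0 ≤ R) (hG : 0 ≤ G) (hE : 0 ≤ E) (hx : x ≤ C * K ^ 48 * y)
    (hS : S ≤ C * D ^ 4 * K ^ 48 * E)
    (hy : y * (H / (C * K ^ 100)) ^ (10 / 3 : ℝ) ≤ G * (C * A) ^ (4 / 3 : ℝ) * R ^ (1 / 3 : ℝ) * S) :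
    x * H ^ (10 / 3 : ℝ) ≤
      C ^ 8 * (K ^ 496 * D ^ 4 * G) * (A ^ (4 / 3 : ℝ) * R ^ (1 / 3 : ℝ) * E) := by
  have hC0 : 0 < C := by linarith
  have hK0 : 0 < K := by linarith
  have hCK : 1 ≤ C * K ^ 100 := one_le_mul_of_one_le_of_one_le hC (one_le_pow₀ hK)
  have h1 : H ^ (10 / 3 : ℝ) = (C * K ^ 100) ^ (10 / 3 : ℝ) * (H / (C * K ^ 100)) ^ (10 / 3 : ℝ) := by
    rw [← Real.mul_rpow (by positivity) (by positivity)]
    congr 1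
    field_simp
  have h2 : (C * K ^ 100) ^ (10 / 3 : ℝ) ≤ C ^ 4 * K ^ 400 := by
    calc (C * K ^ 100) ^ (10 / 3 : ℝ) ≤ (C * K ^ 100) ^ ((4 : ℕ) : ℝ) :=
          Real.rpow_le_rpow_of_exponent_le hCK (by norm_num)
      _ = C ^ 4 * K ^ 400 := by rw [Real.rpow_natCast, mul_pow, ← pow_mul]
  have h3 : (C * A) ^ (4 / 3 : ℝ) ≤ C ^ 2 * A ^ (4 / 3 : ℝ) := by
    rw [Real.mul_rpow hC0.le hA.le]
    refine mul_le_mul_of_nonneg_right ?_ (by positivity)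
    rw [← Real.rpow_natCast]
    exact Real.rpow_le_rpow_of_exponent_le hC (by norm_num)
  have h4 : G * (C * A) ^ (4 / 3 : ℝ) * R ^ (1 / 3 : ℝ) * S ≤
      G * (C ^ 2 * A ^ (4 / 3 : ℝ)) * R ^ (1 / 3 : ℝ) * (C * D ^ 4 * K ^ 48 * E) := by
    have h5 : G * (C * A) ^ (4 / 3 : ℝ) * R ^ (1 / 3 : ℝ) ≤
        G * (C ^ 2 * A ^ (4 / 3 : ℝ)) * R ^ (1 / 3 : ℝ) := by gcongr
    calc G * (C * A) ^ (4 / 3 : ℝ) * R ^ (1 / 3 : ℝ) * S
        ≤ G * (C * A) ^ (4 / 3 : ℝ) * R ^ (1 / 3 : ℝ) * (C * D ^ 4 * K ^ 48 * E) :=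
          mul_le_mul_of_nonneg_left hS (by positivity)
      _ ≤ _ := mul_le_mul_of_nonneg_right h5 (by positivity)
  have hh : 0 ≤ (H / (C * K ^ 100)) ^ (10 / 3 : ℝ) := by positivity
  calc x * H ^ (10 / 3 : ℝ)
      ≤ (C * K ^ 48 * y) * H ^ (10 / 3 : ℝ) := mul_le_mul_of_nonneg_right hx (by positivity)
    _ = (C * K ^ 48 * (C * K ^ 100) ^ (10 / 3 : ℝ)) *
          (y * (H / (C * K ^ 100)) ^ (10 / 3 : ℝ)) := by rw [h1]; ring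
    _ ≤ (C * K ^ 48 * (C * K ^ 100) ^ (10 / 3 : ℝ)) *
          (G * (C ^ 2 * A ^ (4 / 3 : ℝ)) * R ^ (1 / 3 : ℝ) * (C * D ^ 4 * K ^ 48 * E)) :=
          mul_le_mul_of_nonneg_left (hy.trans h4) (by positivity)
    _ ≤ (C * K ^ 48 * (C ^ 4 * K ^ 400)) *
          (G * (C ^ 2 * A ^ (4 / 3 : ℝ)) * R ^ (1 / 3 : ℝ) * (C * D ^ 4 * K ^ 48 * E)) := by
          gcongr
    _ = _ := by ring

theorem pf_LEMN (hLEMB : T_LEMB2) (hLNT : T_LNT) (hLNA : T_LNA) (hT43 : T_T43) : T_LEMN := by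
  classical
  obtain ⟨cbb, C1, L0, hcb, hC1, hLB0⟩ := hLEMB
  have hcb' : 0 < 1000 / cbb := by positivity
  refine ⟨min (cbb / 4) (1 / 12), 6000 + 1000 / cbb + 500 * C1, max L0 10,
    lt_min (by positivity) (by norm_num), min_le_right _ _, by linarith, ?_⟩
  intro L β hL hβ ε hε
  obtain ⟨e, he⟩ : ∃ e, e = min ε 1 := ⟨_, rfl⟩
  have he0 : 0 < e := by rw [he]; exact lt_min hε one_pos
  have heε : e ≤ ε := by rw [he]; exact min_le_left _ _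
  obtain ⟨δ₁, CB, hδ1, hδ2, hCB, hLB⟩ := hLB0 L (le_trans (le_max_left _ _) hL) (e / 8)
    (by positivity)
  obtain ⟨d, hd⟩ : ∃ d, d = e / (64 * C1) := ⟨_, rfl⟩
  have hC10 : 0 < C1 := by linarith
  have hd0 : 0 < d := by rw [hd]; positivity
  have hd1 : 64 * C1 * d = e := by rw [hd]; field_simp
  have hd2 : 64 * d ≤ e := by
    rw [← hd1]
    have h0 : 0 ≤ 64 * d := by positivity
    have h1 : 64 * d * 1 ≤ 64 * d * C1 := mul_le_mul_of_nonneg_left hC1 h0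
    linarith
  refine ⟨δ₁, hδ1, by linarith, 5 + ⌈4 / d⌉₊, fun N hN => ?_⟩
  have hL10 : 10 ≤ L := le_trans (le_max_right _ _) hL
  obtain ⟨CT, hCT, hT⟩ := hLNT N β (by omega) hβ
  obtain ⟨CA, hCA, hA0⟩ := hLNA L N β (by omega) (by omega) hβ
  obtain ⟨C4, hC4, h4⟩ := hT43 L (e / 8) hL10 (by positivity)
  have hCA0 : 0 < CA := by linarith
  obtain ⟨R0, hR0⟩ : ∃ R0, R0 = max CA (((C1 * CA) ^ C1) ^ (32 / e)) := ⟨_, rfl⟩
  have hR0a : CA ≤ R0 := by rw [hR0]; exact le_max_left _ _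
  have hR0b : ((C1 * CA) ^ C1) ^ (32 / e) ≤ R0 := by rw [hR0]; exact le_max_right _ _
  have hR00 : 0 < R0 := by linarith
  refine ⟨CT + CT * R0 + CA ^ 8 * CB + CA ^ 8 * C4, by positivity, ?_⟩
  intro R Λ K A H n G X hR hK hKΛ hn hA hH hΛH hCls hSep hNar
  obtain ⟨c0, hc0⟩ : ∃ c0, c0 = min (cbb / 4) (1 / 12) := ⟨_, rfl⟩
  have hc1 : c0 ≤ cbb / 4 := by rw [hc0]; exact min_le_left _ _
  have hc2 : c0 ≤ 1 / 12 := by rw [hc0]; exact min_le_right _ _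
  have hc3 : 0 < c0 := by rw [hc0]; exact lt_min (by positivity) (by norm_num)
  rw [← hc0]
  have hR' : 0 < R := by linarith
  have hK1 : 1 ≤ K := by linarith
  have hK0 : 0 < K := by linarith
  have hΛ1 : 1 ≤ Λ := le_trans (Real.one_le_rpow hK1 (by linarith)) hKΛ
  have hΛ0 : 0 < Λ := by linarith
  have k250 : K ^ 250 ≤ Λ ^ (1 / 12 : ℝ) := kpow hK1 hKΛ (by norm_num) (by push_cast; linarith)
  have k496 : K ^ 496 ≤ Λ ^ (1 / 12 : ℝ) := kpow hK1 hKΛ (by norm_num) (by push_cast; linarith)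
  have k496' : K ^ 496 ≤ Λ ^ (3 * cbb / 4) := by
    refine kpow hK1 hKΛ (by positivity) ?_
    have h1 : 1000 / cbb * (3 * cbb / 4) = 750 := by field_simp; norm_num
    have h2 : 0 ≤ 6000 * (3 * cbb / 4) := by positivity
    have h3 : 0 ≤ 500 * C1 * (3 * cbb / 4) := by positivity
    rw [add_mul, add_mul, h1]
    push_cast
    linarith
  have k100 : K ^ 100 ≤ Λ := by
    have := kpow (p := 100) (t := 1) hK1 hKΛ (by norm_num) (by push_cast; linarith)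
    rwa [Real.rpow_one] at this
  obtain ⟨E, hE⟩ : ∃ E, E = ∫ ζ, ‖G ζ‖ ^ 2 := ⟨_, rfl⟩
  have hE0 : 0 ≤ E := by
    rw [hE]
    exact integral_nonneg fun ζ => by positivity
  rw [← hE]
  have hRε : 1 ≤ R ^ ε := Real.one_le_rpow hR hε.le
  obtain ⟨B, hB⟩ : ∃ B, B = A ^ (4 / 3 : ℝ) * R ^ (1 / 3 : ℝ) * E := ⟨_, rfl⟩
  have hB0 : 0 ≤ B := by rw [hB]; positivity
  have hΛc : 0 < Λ ^ (-c0) := by positivity
  have hfin : ∀ c' : ℝ, c' ≤ CT + CT * R0 + CA ^ 8 * CB + CA ^ 8 * C4 →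
      (X.card : ℝ) * H ^ (10 / 3 : ℝ) ≤ c' * (R ^ ε * Λ ^ (-c0)) * B →
      (X.card : ℝ) * H ^ (10 / 3 : ℝ) ≤ (CT + CT * R0 + CA ^ 8 * CB + CA ^ 8 * C4) * R ^ ε *
        Λ ^ (-c0) * A ^ (4 / 3 : ℝ) * R ^ (1 / 3 : ℝ) * E := by
    intro c' h1 h2
    refine h2.trans ?_
    have h3 : c' * (R ^ ε * Λ ^ (-c0)) * B ≤
        (CT + CT * R0 + CA ^ 8 * CB + CA ^ 8 * C4) * (R ^ ε * Λ ^ (-c0)) * B := by gcongr
    refine h3.trans (le_of_eq ?_)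
    rw [hB]
    ring
  have hp1 : 0 ≤ CT * R0 := by positivity
  have hp2 : 0 ≤ CA ^ 8 * CB := by positivity
  have hp3 : 0 ≤ CA ^ 8 * C4 := by positivity
  have htriv : (X.card : ℝ) * H ^ (10 / 3 : ℝ) ≤ CT * E * (Λ ^ (1 / 12 : ℝ) * H ^ (4 / 3 : ℝ)) := by
    have h1 := hT (1 / 4) R K H n G X (by norm_num) (by norm_num) hR hK1 hH hCls.1 hCls.2.1 hSep hNar
    rw [← hE] at h1
    calc (X.card : ℝ) * H ^ (10 / 3 : ℝ) = ((X.card : ℝ) * H ^ 2) * H ^ (4 / 3 : ℝ) := by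
          rw [split43 hH]; ring
      _ ≤ (CT * K ^ 250 * E) * H ^ (4 / 3 : ℝ) := mul_le_mul_of_nonneg_right h1 (by positivity)
      _ ≤ (CT * Λ ^ (1 / 12 : ℝ) * E) * H ^ (4 / 3 : ℝ) := by gcongr
      _ = _ := by ring
  by_cases hHA : H ≤ A
  · refine hfin CT (by linarith) (htriv.trans ?_)
    calc CT * E * (Λ ^ (1 / 12 : ℝ) * H ^ (4 / 3 : ℝ))
        ≤ CT * E * (Λ ^ (-c0) * A ^ (4 / 3 : ℝ) * R ^ (1 / 3 : ℝ)) :=
          mul_le_mul_of_nonneg_left (triv1 hR hΛ1 hA hH hHA hΛH hc2) (by positivity)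
      _ = CT * (1 * Λ ^ (-c0)) * B := by rw [hB]; ring
      _ ≤ CT * (R ^ ε * Λ ^ (-c0)) * B := by gcongr
  rw [not_le] at hHA
  by_cases hRR : R < R0
  · refine hfin (CT * R0) (by linarith) (htriv.trans ?_)
    calc CT * E * (Λ ^ (1 / 12 : ℝ) * H ^ (4 / 3 : ℝ))
        ≤ CT * E * (R * (Λ ^ (-c0) * A ^ (4 / 3 : ℝ) * R ^ (1 / 3 : ℝ))) :=
          mul_le_mul_of_nonneg_left (triv2 hR hΛ1 hA hH hΛH hc2) (by positivity)
      _ = CT * R * (1 * Λ ^ (-c0)) * B := by rw [hB]; ring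
      _ ≤ CT * R0 * (R ^ ε * Λ ^ (-c0)) * B := by gcongr
  rw [not_lt] at hRR
  have hΛR : Λ < R := by
    have : Λ * H < R * H := by
      refine lt_of_le_of_lt hΛH ?_
      rw [mul_comm]
      exact mul_lt_mul_of_pos_left hHA hR'
    exact lt_of_mul_lt_mul_right this hH.le
  -- the array
  obtain ⟨D, hDd⟩ : ∃ D, D = R ^ d := ⟨_, rfl⟩
  have hD1 : 1 ≤ D := by rw [hDd]; exact Real.one_le_rpow hR hd0.le
  have hD0 : 0 < D := by linarith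
  have hDN : R ^ 4 ≤ D ^ N := by
    rw [hDd, ← Real.rpow_natCast, ← Real.rpow_natCast, ← Real.rpow_mul hR'.le]
    refine Real.rpow_le_rpow_of_exponent_le hR ?_
    have h1 : (4 / d : ℝ) ≤ N := by
      refine (Nat.le_ceil _).trans ?_
      exact_mod_cast (by omega : ⌈4 / d⌉₊ ≤ N)
    rw [div_le_iff₀ hd0] at h1
    push_cast
    linarith
  have hcond : CA * A * R * K ^ 100 ≤ D ^ N * H := by
    have h1 : K ^ 100 ≤ R := k100.trans hΛR.le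
    have h2 : CA ≤ R := hR0a.trans hRR
    calc CA * A * R * K ^ 100 ≤ R * H * R * R := by gcongr
      _ = R ^ 3 * H := by ring
      _ ≤ R ^ 4 * H := mul_le_mul_of_nonneg_right (pow_le_pow_right₀ hR (by norm_num)) hH.le
      _ ≤ D ^ N * H := by gcongr
  obtain ⟨I, G', Y, hI, hctr, hArr, hSepY, hXY, hS, hBr⟩ :=
    hA0 (1 / 4) R K D A H n G X (by norm_num) (by norm_num) hR hK1 hD1 hA hH hcond hCls hSep hNar
  rw [← hE] at hS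
  have hCK : 1 ≤ CA * K ^ 100 := one_le_mul_of_one_le_of_one_le hCA (one_le_pow₀ hK1)
  have hH'0 : 0 < H / (CA * K ^ 100) := by positivity
  have hH' : H / (CA * K ^ 100) ≤ H := div_le_self hH.le hCK
  have hD4 : D ^ 4 = R ^ (4 * d) := by
    rw [hDd, ← Real.rpow_natCast, ← Real.rpow_mul hR'.le]
    congr 1
    push_cast
    ring
  by_cases hΛe : R ^ (e / 8) ≤ Λ
  · -- LEMB2
    have hM : 1 ≤ CA * D ^ 4 * K ^ 60 :=
      one_le_mul_of_one_le_of_one_le (one_le_mul_of_one_le_of_one_le hCA (one_le_pow₀ hD1))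
        (one_le_pow₀ hK1)
    have hΛbig : (C1 * K * (CA * D ^ 4 * K ^ 60)) ^ C1 ≤ Λ := by
      have e1 : C1 * K * (CA * D ^ 4 * K ^ 60) = (C1 * CA) * K ^ 61 * D ^ 4 := by ring
      rw [e1, Real.mul_rpow (by positivity) (by positivity),
        Real.mul_rpow (by positivity) (by positivity)]
      have a1 : (C1 * CA) ^ C1 ≤ Λ ^ (1 / 4 : ℝ) := by
        have b0 : 0 ≤ (C1 * CA) ^ C1 := by positivity
        have b1 : (C1 * CA) ^ C1 = (((C1 * CA) ^ C1) ^ (32 / e)) ^ (e / 32) := by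
          rw [← Real.rpow_mul b0]
          have : 32 / e * (e / 32) = 1 := by field_simp
          rw [this, Real.rpow_one]
        rw [b1]
        calc (((C1 * CA) ^ C1) ^ (32 / e)) ^ (e / 32) ≤ R ^ (e / 32) :=
              Real.rpow_le_rpow (by positivity) (hR0b.trans hRR) (by positivity)
          _ = (R ^ (e / 8)) ^ (1 / 4 : ℝ) := by
              rw [← Real.rpow_mul hR'.le]
              congr 1
              ring
          _ ≤ Λ ^ (1 / 4 : ℝ) := Real.rpow_le_rpow (by positivity) hΛe (by norm_num)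
      have a2 : (K ^ 61) ^ C1 ≤ Λ ^ (1 / 4 : ℝ) := by
        rw [← Real.rpow_natCast, ← Real.rpow_mul hK0.le]
        refine kpowr hK1 hKΛ (by norm_num) ?_
        push_cast
        linarith
      have a3 : (D ^ 4) ^ C1 ≤ Λ ^ (1 / 2 : ℝ) := by
        rw [hD4, ← Real.rpow_mul hR'.le]
        calc R ^ (4 * d * C1) = (R ^ (e / 8)) ^ (1 / 2 : ℝ) := by
              rw [← Real.rpow_mul hR'.le]
              congr 1
              linarith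
          _ ≤ Λ ^ (1 / 2 : ℝ) := Real.rpow_le_rpow (by positivity) hΛe (by norm_num)
      calc (C1 * CA) ^ C1 * (K ^ 61) ^ C1 * (D ^ 4) ^ C1
          ≤ Λ ^ (1 / 4 : ℝ) * Λ ^ (1 / 4 : ℝ) * Λ ^ (1 / 2 : ℝ) := by gcongr
        _ = Λ := by
            rw [← Real.rpow_add hΛ0, ← Real.rpow_add hΛ0]
            norm_num
    have hρ1 : C1 * K ^ 4 * (K ^ 6)⁻¹ ≤ 1 := by
      have h0 : C1 ≤ K := by linarith
      have h1 : C1 ≤ K ^ 2 := h0.trans (by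
        rw [pow_two]
        exact le_mul_of_one_le_left hK0.le hK1)
      rw [← div_eq_mul_inv, div_le_one (by positivity)]
      calc C1 * K ^ 4 ≤ K ^ 2 * K ^ 4 := by gcongr
        _ = K ^ 6 := by ring
    have hρ2 : Λ ^ (-(1 / 8) : ℝ) ≤ (K ^ 6)⁻¹ := by
      rw [Real.rpow_neg hΛ0.le]
      refine inv_anti₀ (by positivity) ?_
      exact kpow hK1 hKΛ (by norm_num) (by push_cast; linarith)
    have hb := hLB R Λ K (K ^ 6)⁻¹ (CA * D ^ 4 * K ^ 60) n hR hK1 (by positivity) hM hΛbig hρ1 hρ2 hn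
      ((Fin 2 → ℤ) × Zi 2) I (fun k => ctr (K ^ 6)⁻¹ k.1) (CA * A) (H / (CA * K ^ 100)) G' Y
      (by positivity) hH'0 (by
        calc Λ * (H / (CA * K ^ 100)) ≤ Λ * H := by gcongr
          _ ≤ A * R := hΛH
          _ ≤ CA * A * R := by
            have : A ≤ CA * A := le_mul_of_one_le_left hA.le hCA
            exact mul_le_mul_of_nonneg_right this hR'.le) hI hctr hArr hSepY hBr
    have hf := arr_to (G := CB * R ^ (e / 8) * Λ ^ (-cbb)) hCA hK1 hH hA hR'.le (by positivity) hE0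
      hXY hS hb
    refine hfin (CA ^ 8 * CB) (by linarith) (hf.trans ?_)
    rw [← hB]
    refine mul_le_mul_of_nonneg_right ?_ hB0
    rw [mul_assoc (CA ^ 8)]
    refine mul_le_mul_of_nonneg_left ?_ (by positivity)
    have g1 : K ^ 496 * Λ ^ (-cbb) ≤ Λ ^ (-c0) := by
      calc K ^ 496 * Λ ^ (-cbb) ≤ Λ ^ (3 * cbb / 4) * Λ ^ (-cbb) := by gcongr
        _ = Λ ^ (3 * cbb / 4 + -cbb) := (Real.rpow_add hΛ0 _ _).symm
        _ ≤ Λ ^ (-c0) := Real.rpow_le_rpow_of_exponent_le hΛ1 (by linarith)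
    have g2 : D ^ 4 * R ^ (e / 8) ≤ R ^ ε := by
      rw [hD4, ← Real.rpow_add hR']
      exact Real.rpow_le_rpow_of_exponent_le hR (by linarith)
    calc K ^ 496 * D ^ 4 * (CB * R ^ (e / 8) * Λ ^ (-cbb))
        = CB * ((D ^ 4 * R ^ (e / 8)) * (K ^ 496 * Λ ^ (-cbb))) := by ring
      _ ≤ CB * (R ^ ε * Λ ^ (-c0)) := by gcongr
  · -- T43
    rw [not_le] at hΛe
    have hcov : Y ⊆ I.biUnion fun k => Y.filter fun z => H / (CA * K ^ 100) ≤ ‖TF (G' k) z‖ := by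
      intro z hz
      obtain ⟨k, hk, hk2, -⟩ := hBr z hz (fun _ => (1, 0, 0)) (fun _ => by
        simp [Prod.norm_def])
      rw [Finset.mem_biUnion]
      exact ⟨k, hk, Finset.mem_filter.mpr ⟨hz, hk2⟩⟩
    have hb : (Y.card : ℝ) * (H / (CA * K ^ 100)) ^ (10 / 3 : ℝ) ≤
        (C4 * R ^ (e / 8)) * (CA * A) ^ (4 / 3 : ℝ) * R ^ (1 / 3 : ℝ) *
          ∑ k ∈ I, ∫ ζ, ‖G' k ζ‖ ^ 2 := by
      have h1 : (Y.card : ℝ) ≤
          ∑ k ∈ I, ((Y.filter fun z => H / (CA * K ^ 100) ≤ ‖TF (G' k) z‖).card : ℝ) := by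
        exact_mod_cast (Finset.card_le_card hcov).trans Finset.card_biUnion_le
      have hh : 0 ≤ (H / (CA * K ^ 100)) ^ (10 / 3 : ℝ) := by positivity
      refine (mul_le_mul_of_nonneg_right h1 hh).trans ?_
      rw [Finset.sum_mul, Finset.mul_sum]
      refine Finset.sum_le_sum fun k hk => ?_
      refine h4 R (CA * A) (H / (CA * K ^ 100)) (G' k) _ hR (by positivity) hH'0 (hArr k hk).1 ?_ ?_
      · intro z hz z' hz' hne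
        exact hSepY z (Finset.mem_filter.mp hz).1 z' (Finset.mem_filter.mp hz').1 hne
      · exact fun z hz => (Finset.mem_filter.mp hz).2
    have hf := arr_to (G := C4 * R ^ (e / 8)) hCA hK1 hH hA hR'.le (by positivity) hE0
      hXY hS hb
    refine hfin (CA ^ 8 * C4) (by linarith) (hf.trans ?_)
    rw [← hB]
    refine mul_le_mul_of_nonneg_right ?_ hB0
    rw [mul_assoc (CA ^ 8)]
    refine mul_le_mul_of_nonneg_left ?_ (by positivity)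
    have g1 : K ^ 496 ≤ Λ ^ (-c0) * R ^ (e / 8) := by
      calc K ^ 496 ≤ Λ ^ (1 / 12 : ℝ) := k496
        _ ≤ Λ ^ (-c0 + 1) := Real.rpow_le_rpow_of_exponent_le hΛ1 (by linarith)
        _ = Λ ^ (-c0) * Λ := by rw [Real.rpow_add hΛ0, Real.rpow_one]
        _ ≤ Λ ^ (-c0) * R ^ (e / 8) := by gcongr
    have g2 : D ^ 4 * R ^ (e / 8) * R ^ (e / 8) ≤ R ^ ε := by
      rw [hD4, ← Real.rpow_add hR', ← Real.rpow_add hR']
      exact Real.rpow_le_rpow_of_exponent_le hR (by linarith)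
    calc K ^ 496 * D ^ 4 * (C4 * R ^ (e / 8))
        = C4 * (D ^ 4 * R ^ (e / 8) * K ^ 496) := by ring
      _ ≤ C4 * (D ^ 4 * R ^ (e / 8) * (Λ ^ (-c0) * R ^ (e / 8))) := by gcongr
      _ = C4 * ((D ^ 4 * R ^ (e / 8) * R ^ (e / 8)) * Λ ^ (-c0)) := by ring
      _ ≤ C4 * (R ^ ε * Λ ^ (-c0)) := by gcongr

end Pool.Agent.H34.LB
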